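import Pool.Agent.H41.Kwd2

set_option autoImplicit false

open MeasureTheory Filter Pool.Agent.H41.Kwd
open scoped Topology

theorem Pool.Agent.Results.MP_6cdded_pr.Limit.result (k : ℕ) :
    Tendsto (fun n : ℕ => (∫ ω, (kwd (setLt ω) k : ℝ) ∂law n) / n) atTop (𝓝 (1 / (k + 1))) :=
  lim k (fun _ => le_rfl) fun _ => E_mono k
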